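import Pool.Agent.H852R2.EX.Defs

/-! Task 09 (helper153): the operators `T_x` and `S = T_x^m T_b T_x^m`. -/

namespace RC852
open RC14 Finset
open scoped InnerProductSpace

variable {G : Type*} [Group G] [Fintype G]
variable {V : Type*} [NormedAddCommGroup V] [InnerProductSpace ℂ V] [FiniteDimensional ℂ V]

namespace OPS

omit [Fintype G] [FiniteDimensional ℂ V]

theorem inner_op (ρ : G →* (V ≃ₗᵢ[ℂ] V)) (g : G) (v w : V) :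
    ⟪ρ g v, w⟫_ℂ = ⟪v, ρ g⁻¹ w⟫_ℂ := by
  have h1 : ρ g (ρ g⁻¹ w) = w := by
    rw [map_inv]; exact (ρ g).apply_symm_apply _
  conv_lhs => rw [← h1]
  exact (ρ g).inner_map_map _ _

theorem sl_not {q : ℕ} (x : Fin q → G) (i : Fin q) (s : Bool) : sl x (i, !s) = (sl x (i, s))⁻¹ := by
  cases s <;> simp [sl]

theorem Tq_apply {q : ℕ} (ρ : G →* (V ≃ₗᵢ[ℂ] V)) (x : Fin q → G) (v : V) :
    Tq ρ x v = (1 / (2 * q) : ℂ) • ∑ a : Fin q × Bool, ρ (sl x a) v := by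
  simp [Tq, LinearMap.sum_apply]

theorem Tq_symm {q : ℕ} (ρ : G →* (V ≃ₗᵢ[ℂ] V)) (x : Fin q → G) : (Tq ρ x).IsSymmetric := by
  intro v w
  rw [Tq_apply, Tq_apply, inner_smul_left, inner_smul_right, sum_inner, inner_sum]
  have hc : (starRingEnd ℂ) (1 / (2 * q) : ℂ) = (1 / (2 * q) : ℂ) := by
    have h0 : (1 / (2 * q) : ℂ) = (((1 / (2 * q) : ℝ)) : ℂ) := by push_cast; rfl
    rw [h0, Complex.conj_ofReal]
  rw [hc]
  congr 1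
  let e : Fin q × Bool ≃ Fin q × Bool :=
    { toFun := fun a => (a.1, !a.2)
      invFun := fun a => (a.1, !a.2)
      left_inv := fun a => by simp
      right_inv := fun a => by simp }
  rw [← Equiv.sum_comp e (fun a => ⟪v, ρ (sl x a) w⟫_ℂ)]
  apply Finset.sum_congr rfl
  rintro ⟨i, s⟩ _
  rw [inner_op]
  show _ = ⟪v, ρ (sl x (i, !s)) w⟫_ℂ
  rw [sl_not]

theorem Tq_norm {q : ℕ} (hq : 1 ≤ q) (ρ : G →* (V ≃ₗᵢ[ℂ] V)) (x : Fin q → G) (v : V) :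
    ‖Tq ρ x v‖ ≤ ‖v‖ := by
  have hq0 : (0 : ℝ) < q := by exact_mod_cast hq
  rw [Tq_apply, norm_smul]
  have h1 : ‖∑ a : Fin q × Bool, ρ (sl x a) v‖ ≤ 2 * q * ‖v‖ := by
    refine (norm_sum_le _ _).trans ?_
    simp only [LinearIsometryEquiv.norm_map, Finset.sum_const, Finset.card_univ,
      Fintype.card_prod, Fintype.card_fin, Fintype.card_bool, nsmul_eq_mul]
    push_cast
    exact le_of_eq (by ring)
  have h2 : ‖(1 / (2 * q) : ℂ)‖ = 1 / (2 * q) := by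
    rw [norm_div, norm_mul, norm_one, Complex.norm_natCast]
    norm_num
  rw [h2]
  calc 1 / (2 * (q : ℝ)) * ‖∑ a : Fin q × Bool, ρ (sl x a) v‖ ≤ 1 / (2 * (q : ℝ)) * (2 * q * ‖v‖) := by
        gcongr
    _ = ‖v‖ := by field_simp

theorem norm_sub_sq' (v w : V) : ‖v - w‖ ^ 2 = ‖v‖ ^ 2 - 2 * (⟪v, w⟫_ℂ).re + ‖w‖ ^ 2 := by
  have := @norm_sub_sq ℂ V _ _ _ v w
  simpa using this

/-- `Re ⟨T v, v⟩ = |v|² - En / 2q` -/
theorem Tq_energy {q : ℕ} (hq : 1 ≤ q) (ρ : G →* (V ≃ₗᵢ[ℂ] V)) (x : Fin q → G) (v : V) :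
    (⟪Tq ρ x v, v⟫_ℂ).re = ‖v‖ ^ 2 - En ρ x v / (2 * q) := by
  have hq0 : (0 : ℝ) < q := by exact_mod_cast hq
  have h1 : ∀ g : G, (⟪ρ g v, v⟫_ℂ).re = ‖v‖ ^ 2 - ‖ρ g v - v‖ ^ 2 / 2 := by
    intro g
    rw [norm_sub_sq', (ρ g).norm_map]
    ring
  have h2 : ∀ g : G, ‖ρ g⁻¹ v - v‖ = ‖ρ g v - v‖ := by
    intro g
    have h3 : ρ g (ρ g⁻¹ v - v) = v - ρ g v := by
      rw [map_sub]
      congr 1
      rw [map_inv]; exact (ρ g).apply_symm_apply _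
    rw [← (ρ g).norm_map (ρ g⁻¹ v - v), h3, norm_sub_rev]
  have h3 : ∑ a : Fin q × Bool, (⟪ρ (sl x a) v, v⟫_ℂ).re = 2 * q * ‖v‖ ^ 2 - En ρ x v := by
    rw [Fintype.sum_prod_type]
    have h4 : ∀ i : Fin q, ∑ s : Bool, (⟪ρ (sl x (i, s)) v, v⟫_ℂ).re
        = 2 * ‖v‖ ^ 2 - ‖ρ (x i) v - v‖ ^ 2 := by
      intro i
      rw [Fintype.sum_bool, h1, h1]
      simp only [sl, if_true]
      have h5 := h2 (x i)
      simp only [Bool.false_eq_true, if_false]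
      rw [h5]
      ring
    rw [Finset.sum_congr rfl fun i _ => h4 i, Finset.sum_sub_distrib, Finset.sum_const,
      Finset.card_univ, Fintype.card_fin, nsmul_eq_mul]
    unfold En
    ring
  have hc : (starRingEnd ℂ) (1 / (2 * q) : ℂ) = (((1 / (2 * q) : ℝ)) : ℂ) := by
    have h0 : (1 / (2 * q) : ℂ) = (((1 / (2 * q) : ℝ)) : ℂ) := by push_cast; rfl
    rw [h0, Complex.conj_ofReal]
  rw [Tq_apply, inner_smul_left, hc, Complex.re_ofReal_mul, sum_inner, Complex.re_sum, h3]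
  field_simp

section
variable {T : Module.End ℂ V}

theorem re_symm (hT : T.IsSymmetric) (v w : V) : (⟪T v, w⟫_ℂ).re = (⟪T w, v⟫_ℂ).re := by
  rw [hT v w, ← inner_conj_symm, Complex.conj_re]

/-- the energy decreases -/
theorem e_mono (hT : T.IsSymmetric) (hc : ∀ v, ‖T v‖ ≤ ‖v‖) (u : V) :
    ‖T u‖ ^ 2 - (⟪T (T u), T u⟫_ℂ).re ≤ ‖u‖ ^ 2 - (⟪T u, u⟫_ℂ).re := by
  have h1 := norm_sub_sq' u (T u)
  have h2 : (⟪T (u - T u), u - T u⟫_ℂ).re = (⟪T u, u⟫_ℂ).re - 2 * ‖T u‖ ^ 2 +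
      (⟪T (T u), T u⟫_ℂ).re := by
    rw [map_sub, inner_sub_left, inner_sub_right, inner_sub_right, Complex.sub_re, Complex.sub_re,
      Complex.sub_re]
    have h3 : (⟪T u, T u⟫_ℂ).re = ‖T u‖ ^ 2 := by
      have := @inner_self_eq_norm_sq ℂ V _ _ _ (T u)
      simpa using this
    have h4 : (⟪T (T u), u⟫_ℂ).re = ‖T u‖ ^ 2 := by
      rw [hT (T u) u]; exact h3
    rw [h3, h4]
    ring
  have h5 : -(‖u - T u‖ ^ 2) ≤ (⟪T (u - T u), u - T u⟫_ℂ).re := by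
    have h6 : |(⟪T (u - T u), u - T u⟫_ℂ).re| ≤ ‖T (u - T u)‖ * ‖u - T u‖ :=
      (Complex.abs_re_le_norm _).trans (norm_inner_le_norm _ _)
    have h7 := hc (u - T u)
    have h8 : ‖T (u - T u)‖ * ‖u - T u‖ ≤ ‖u - T u‖ * ‖u - T u‖ :=
      mul_le_mul_of_nonneg_right h7 (norm_nonneg _)
    have h9 := neg_abs_le (⟪T (u - T u), u - T u⟫_ℂ).re
    nlinarith
  have h10 : (⟪u, T u⟫_ℂ).re = (⟪T u, u⟫_ℂ).re := by rw [← hT u u]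
  rw [h10] at h1
  linarith

theorem pow_succ_apply (m : ℕ) (v : V) : (T ^ (m + 1)) v = T ((T ^ m) v) := by
  rw [pow_succ', Module.End.mul_apply]

theorem pow_norm (hc : ∀ v, ‖T v‖ ≤ ‖v‖) (m : ℕ) (v : V) : ‖(T ^ m) v‖ ≤ ‖v‖ := by
  induction m with
  | zero => simp
  | succ m ih =>
    rw [pow_succ_apply]
    exact (hc _).trans ih

theorem e_pow (hT : T.IsSymmetric) (hc : ∀ v, ‖T v‖ ≤ ‖v‖) (m : ℕ) (v : V) :
    ‖(T ^ m) v‖ ^ 2 - (⟪T ((T ^ m) v), (T ^ m) v⟫_ℂ).re ≤ ‖v‖ ^ 2 - (⟪T v, v⟫_ℂ).re := by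
  induction m with
  | zero => simp
  | succ m ih =>
    rw [pow_succ_apply]
    exact (e_mono hT hc _).trans ih

theorem sq_pow (hT : T.IsSymmetric) (hc : ∀ v, ‖T v‖ ≤ ‖v‖) (m : ℕ) (v : V) :
    ‖v‖ ^ 2 - ‖(T ^ m) v‖ ^ 2 ≤ 2 * m * (‖v‖ ^ 2 - (⟪T v, v⟫_ℂ).re) := by
  induction m with
  | zero => simp
  | succ m ih =>
    rw [pow_succ_apply]
    have h1 := e_pow hT hc m v
    have h2 := norm_sub_sq' ((T ^ m) v) (T ((T ^ m) v))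
    have h3 : (⟪(T ^ m) v, T ((T ^ m) v)⟫_ℂ).re = (⟪T ((T ^ m) v), (T ^ m) v⟫_ℂ).re := by
      rw [← hT ((T ^ m) v) ((T ^ m) v)]
    rw [h3] at h2
    have h4 : 0 ≤ ‖(T ^ m) v - T ((T ^ m) v)‖ ^ 2 := sq_nonneg _
    push_cast
    nlinarith

theorem sub_pow (hc : ∀ v, ‖T v‖ ≤ ‖v‖) (m : ℕ) (v : V) :
    ‖v - (T ^ m) v‖ ≤ m * ‖v - T v‖ := by
  induction m with
  | zero => simp
  | succ m ih =>
    have h1 : v - (T ^ (m + 1)) v = (v - (T ^ m) v) + (T ^ m) (v - T v) := by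
      rw [map_sub, pow_succ, Module.End.mul_apply]; abel
    rw [h1]
    refine (norm_add_le _ _).trans ?_
    have h2 := pow_norm hc m (v - T v)
    push_cast
    nlinarith

end

end OPS

open OPS

theorem Sop_symm {q : ℕ} (ρ : G →* (V ≃ₗᵢ[ℂ] V)) (x b : Fin q → G) (m : ℕ) :
    (Sop ρ x b m).IsSymmetric := by
  intro v w
  have h1 := (Tq_symm ρ x).pow m
  have h2 := Tq_symm ρ b
  show ⟪(Tq ρ x ^ m) (Tq ρ b ((Tq ρ x ^ m) v)), w⟫_ℂ = ⟪v, (Tq ρ x ^ m) (Tq ρ b ((Tq ρ x ^ m) w))⟫_ℂ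
  rw [h1, h2, h1]

omit [Fintype G] [FiniteDimensional ℂ V] in
theorem Sop_re {q : ℕ} (ρ : G →* (V ≃ₗᵢ[ℂ] V)) (x b : Fin q → G) (m : ℕ) (v : V) :
    ⟪Sop ρ x b m v, v⟫_ℂ = ⟪Tq ρ b ((Tq ρ x ^ m) v), (Tq ρ x ^ m) v⟫_ℂ := by
  have h1 := (Tq_symm ρ x).pow m
  show ⟪(Tq ρ x ^ m) (Tq ρ b ((Tq ρ x ^ m) v)), v⟫_ℂ = _
  rw [h1]

theorem Sop_le {q : ℕ} (hq : 1 ≤ q) (ρ : G →* (V ≃ₗᵢ[ℂ] V)) (x b : Fin q → G) (m : ℕ) (v : V) :
    (⟪Sop ρ x b m v, v⟫_ℂ).re ≤ ‖v‖ ^ 2 := by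
  rw [Sop_re]
  have h1 := pow_norm (Tq_norm hq ρ x) m v
  have h2 : (⟪Tq ρ b ((Tq ρ x ^ m) v), (Tq ρ x ^ m) v⟫_ℂ).re ≤
      ‖Tq ρ b ((Tq ρ x ^ m) v)‖ * ‖(Tq ρ x ^ m) v‖ :=
    (Complex.re_le_norm _).trans (norm_inner_le_norm _ _)
  have h3 := Tq_norm hq ρ b ((Tq ρ x ^ m) v)
  have h4 := norm_nonneg ((Tq ρ x ^ m) v)
  have h5 := norm_nonneg v
  nlinarith [mul_le_mul_of_nonneg_right h3 h4, mul_le_mul h1 h1 h4 h5]

theorem Sop_energy {q : ℕ} (hq : 1 ≤ q) (ρ : G →* (V ≃ₗᵢ[ℂ] V)) (x b : Fin q → G) (m : ℕ)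
    (v : V) :
    ‖v‖ ^ 2 - (⟪Sop ρ x b m v, v⟫_ℂ).re ≤
      6 * (m : ℝ) ^ 2 / q * En ρ x v + 1 / (q : ℝ) * En ρ b v := by
  have hq0 : (0 : ℝ) < q := by exact_mod_cast hq
  rw [Sop_re, Tq_energy hq]
  set u := (Tq ρ x ^ m) v with hu
  have hEx : 0 ≤ En ρ x v := Finset.sum_nonneg fun _ _ => sq_nonneg _
  have hA := sq_pow (Tq_symm ρ x) (Tq_norm hq ρ x) m v
  rw [Tq_energy hq, ← hu] at hA
  have hB := sub_pow (Tq_norm hq ρ x) m v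
  rw [← hu] at hB
  have hC : ‖v - Tq ρ x v‖ ^ 2 ≤ En ρ x v / q := by
    rw [OPS.norm_sub_sq']
    have h1 : (⟪v, Tq ρ x v⟫_ℂ).re = ‖v‖ ^ 2 - En ρ x v / (2 * q) := by
      rw [← Tq_symm ρ x v v]; exact Tq_energy hq ρ x v
    have h2 := pow_le_pow_left₀ (norm_nonneg _) (Tq_norm hq ρ x v) 2
    rw [h1]
    have h3 : En ρ x v / q = 2 * (En ρ x v / (2 * q)) := by field_simp
    rw [h3]
    linarith
  have hD : ‖v - u‖ ^ 2 ≤ (m : ℝ) ^ 2 * (En ρ x v / q) := by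
    have h1 := pow_le_pow_left₀ (norm_nonneg _) hB 2
    rw [mul_pow] at h1
    exact h1.trans (mul_le_mul_of_nonneg_left hC (by positivity))
  have hE : En ρ b u ≤ 2 * En ρ b v + 8 * (q * ‖v - u‖ ^ 2) := by
    unfold En
    have h1 : ∀ i : Fin q, ‖ρ (b i) u - u‖ ^ 2 ≤ 2 * ‖ρ (b i) v - v‖ ^ 2 + 8 * ‖v - u‖ ^ 2 := by
      intro i
      have h2 : ρ (b i) u - u = (ρ (b i) v - v) + ((v - u) - ρ (b i) (v - u)) := by
        rw [map_sub]; abel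
      have h3 : ‖ρ (b i) u - u‖ ≤ ‖ρ (b i) v - v‖ + 2 * ‖v - u‖ := by
        rw [h2]
        refine (norm_add_le _ _).trans ?_
        have h4 := norm_sub_le (v - u) (ρ (b i) (v - u))
        rw [(ρ (b i)).norm_map] at h4
        linarith
      have h5 := pow_le_pow_left₀ (norm_nonneg _) h3 2
      nlinarith [sq_nonneg (‖ρ (b i) v - v‖ - 2 * ‖v - u‖)]
    calc ∑ i, ‖ρ (b i) u - u‖ ^ 2 ≤ ∑ i : Fin q, (2 * ‖ρ (b i) v - v‖ ^ 2 + 8 * ‖v - u‖ ^ 2) :=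
          Finset.sum_le_sum fun i _ => h1 i
      _ = _ := by
        rw [Finset.sum_add_distrib, ← Finset.mul_sum, Finset.sum_const, Finset.card_univ,
          Fintype.card_fin, nsmul_eq_mul]
        ring
  have hm : (m : ℝ) ≤ (m : ℝ) ^ 2 := by
    rcases Nat.eq_zero_or_pos m with h | h
    · simp [h]
    · have : (1 : ℝ) ≤ m := by exact_mod_cast h
      nlinarith
  have hF : ‖v‖ ^ 2 - ‖u‖ ^ 2 ≤ (m : ℝ) ^ 2 * (En ρ x v / q) := by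
    have h1 : 2 * (m : ℝ) * (‖v‖ ^ 2 - (‖v‖ ^ 2 - En ρ x v / (2 * q))) = m * (En ρ x v / q) := by
      field_simp
      ring
    rw [h1] at hA
    exact hA.trans (mul_le_mul_of_nonneg_right hm (by positivity))
  have hG : En ρ b u / (2 * q) ≤ En ρ b v / q + 4 * ‖v - u‖ ^ 2 := by
    rw [div_le_iff₀ (by positivity)]
    have h1 : (En ρ b v / q + 4 * ‖v - u‖ ^ 2) * (2 * q) = 2 * En ρ b v + 8 * (q * ‖v - u‖ ^ 2) := by
      field_simp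
      ring
    rw [h1]; exact hE
  have hX : 0 ≤ (m : ℝ) ^ 2 * (En ρ x v / q) := by positivity
  have e1 : 6 * (m : ℝ) ^ 2 / q * En ρ x v = 6 * ((m : ℝ) ^ 2 * (En ρ x v / q)) := by ring
  have e2 : 1 / (q : ℝ) * En ρ b v = En ρ b v / q := by ring
  rw [e1, e2]
  linarith

end RC852
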