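import Pool.Agent.H14R2.RC.Defs

/-!
Definitions for the project EX (MP_75608d_al): expansion for `n^δ` random even permutations.
-/

namespace RC852
open RC14 Finset
open scoped InnerProductSpace

noncomputable section

/-- signed letter: `x_i` or `x_i⁻¹` -/
def sl {G : Type*} [Group G] {q : ℕ} (x : Fin q → G) (a : Fin q × Bool) : G :=
  if a.2 then x a.1 else (x a.1)⁻¹

/-- the value of a word -/
def wrd {G : Type*} [Group G] {q m : ℕ} (x : Fin q → G) (v : Fin m → Fin q × Bool) : G :=
  (List.ofFn fun t => sl x (v t)).prod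

/-- a block `b_i^{±1} g_k`, `c = (k, (i, ±))` -/
def blk {G : Type*} [Group G] {q : ℕ} {K : Type*} (g : K → G) (b : Fin q → G)
    (c : K × (Fin q × Bool)) : G := sl b c.2 * g c.1

/-- the value of a word in the blocks -/
def bwd {G : Type*} [Group G] {q J : ℕ} {K : Type*} (g : K → G) (b : Fin q → G)
    (w : Fin J → K × (Fin q × Bool)) : G := (List.ofFn fun t => blk g b (w t)).prod

/-- `T_x = (1/2q) ∑_a ρ(x_a)`, `a` running over the signed letters -/
def Tq {G : Type*} [Group G] {V : Type*} [NormedAddCommGroup V] [InnerProductSpace ℂ V]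
    {q : ℕ} (ρ : G →* (V ≃ₗᵢ[ℂ] V)) (x : Fin q → G) : Module.End ℂ V :=
  (1 / (2 * q) : ℂ) • ∑ a : Fin q × Bool, op ρ (sl x a)

/-- position after a list of blocks (the head is applied last) -/
def posn {n q : ℕ} {K : Type*} (g : K → Equiv.Perm (Fin n)) (b : Fin q → Equiv.Perm (Fin n))
    (u : List (K × (Fin q × Bool))) (p : Fin n) : Fin n := (u.map (blk g b)).prod p

/-- identifier (index, source) of the `b`-edge which is used when the block `c` is applied to the
point `y` -/
def eid {n q : ℕ} {K : Type*} (g : K → Equiv.Perm (Fin n)) (b : Fin q → Equiv.Perm (Fin n))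
    (c : K × (Fin q × Bool)) (y : Fin n) : Fin q × Fin n :=
  (c.2.1, if c.2.2 then g c.1 y else (b c.2.1)⁻¹ (g c.1 y))

/-- the list of the identifiers of all `b`-edges used (the head is the last one) -/
def edg {n q : ℕ} {K : Type*} (g : K → Equiv.Perm (Fin n)) (b : Fin q → Equiv.Perm (Fin n)) :
    List (K × (Fin q × Bool)) → Fin n → List (Fin q × Fin n)
  | [], _ => []
  | c :: u, p => eid g b c (posn g b u p) :: edg g b u p

/-- the number of different `b`-edges used -/
def dst {n q : ℕ} {K : Type*} (g : K → Equiv.Perm (Fin n)) (b : Fin q → Equiv.Perm (Fin n))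
    (u : List (K × (Fin q × Bool))) (p : Fin n) : ℕ := (edg g b u p).toFinset.card

/-- the operator `S = T_x^m T_b T_x^m` -/
def Sop {G : Type*} [Group G] {V : Type*} [NormedAddCommGroup V] [InnerProductSpace ℂ V]
    {q : ℕ} (ρ : G →* (V ≃ₗᵢ[ℂ] V)) (x b : Fin q → G) (m : ℕ) : Module.End ℂ V :=
  Tq ρ x ^ m * Tq ρ b * Tq ρ x ^ m

/-- the trace of `S^J` on an invariant subspace -/
def RS {G : Type*} [Group G] {V : Type*} [NormedAddCommGroup V] [InnerProductSpace ℂ V]
    {q : ℕ} (ρ : G →* (V ≃ₗᵢ[ℂ] V)) (W : Submodule ℂ V) (hW : Inv ρ W) (x b : Fin q → G)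
    (m J : ℕ) : ℝ := rtr (Sop (res ρ W hW) x b m ^ J)

/-- the family `g` moves every point to an almost uniform point -/
def Mix {n : ℕ} {K : Type*} [Fintype K] (g : K → Equiv.Perm (Fin n)) : Prop :=
  ∀ y z : Fin n, (#{k | g k y = z} : ℝ) ≤ 2 / n * Fintype.card K

end

end RC852
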