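import Pool.Agent.H852R2.EX.Par
import Pool.Agent.H14R2.RC.Asy
import Pool.Agent.H14R2.RC.Util
import Pool.Agent.H14R2.RC.S.FRLOW
import Pool.Agent.H852R2.EX.S.MIX
import Pool.Agent.H852R2.EX.S.BPART
import Pool.Agent.H852R2.EX.S.ZLOW
import Pool.Agent.H852R2.EX.S.ZHIGH
import Pool.Agent.H100R2.EX.MARG

namespace RC852
open RC14 Finset Filter

namespace EXMAIN

lemma expanding_mono {G : Type*} [Group G] [Fintype G] {k : ℕ} {ε ε' : ℝ} (h : ε ≤ ε')
    {x : Fin k → G} (hx : Expanding ε' x) : Expanding ε x := by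
  refine ⟨hx.1, fun f hf => (hx.2 f hf).trans ?_⟩
  have : 0 ≤ ∑ g, f g ^ 2 := Finset.sum_nonneg fun _ _ => sq_nonneg _
  nlinarith

/-- index type of the used coordinates -/
abbrev Idx (q R : ℕ) := Fin q ⊕ (Fin q ⊕ (Fin R × Fin q))

lemma card_Idx (q R : ℕ) : Fintype.card (Idx q R) = (R + 2) * q := by
  simp [Idx]; ring

variable {A : Type*}

def ux {q R : ℕ} (u : Idx q R → A) (i : Fin q) : A := u (Sum.inl i)
def ub {q R : ℕ} (u : Idx q R → A) (i : Fin q) : A := u (Sum.inr (Sum.inl i))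
def uz {q R : ℕ} (u : Idx q R → A) (r : Fin R) (i : Fin q) : A := u (Sum.inr (Sum.inr (r, i)))

def split {q R : ℕ} : (Idx q R → A) ≃ (Fin q → A) × ((Fin q → A) × (Fin R → Fin q → A)) where
  toFun u := (ux u, ub u, uz u)
  invFun p := fun i => match i with
    | Sum.inl i => p.1 i
    | Sum.inr (Sum.inl i) => p.2.1 i
    | Sum.inr (Sum.inr (r, i)) => p.2.2 r i
  left_inv u := by
    ext i
    rcases i with i | i | ⟨r, i⟩ <;> rfl
  right_inv p := rfl

lemma En_le {G : Type*} [Group G] {V : Type*} [NormedAddCommGroup V] [InnerProductSpace ℂ V]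
    (ρ : G →* (V ≃ₗᵢ[ℂ] V)) {q R k : ℕ} (e : Idx q R ↪ Fin k) (y : Fin k → G) (v : V) :
    En ρ (ux fun i => y (e i)) v + En ρ (ub fun i => y (e i)) v +
      ∑ r, En ρ (uz (fun i => y (e i)) r) v ≤ En ρ y v := by
  have h1 : ∑ i : Idx q R, ‖ρ (y (e i)) v - v‖ ^ 2 ≤ ∑ a, ‖ρ (y a) v - v‖ ^ 2 := by
    rw [← Finset.sum_map univ e (fun a => ‖ρ (y a) v - v‖ ^ 2)]
    exact Finset.sum_le_univ_sum_of_nonneg fun _ => by positivity
  have h2 : ∑ i : Idx q R, ‖ρ (y (e i)) v - v‖ ^ 2 =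
      En ρ (ux fun i => y (e i)) v + En ρ (ub fun i => y (e i)) v +
      ∑ r, En ρ (uz (fun i => y (e i)) r) v := by
    rw [Fintype.sum_sum_type, Fintype.sum_sum_type, Fintype.sum_prod_type, ← add_assoc]
    rfl
  rw [← h2]
  exact h1

end EXMAIN

open EXMAIN in
/-- the main theorem with explicit parameters -/
theorem EXMAIN : ∃ C : ℝ, 0 < C ∧ ∀ᶠ n : ℕ in atTop, ∀ (k q m R : ℕ),
    1 ≤ R → 1 ≤ m → (R + 2) * q ≤ k → k ≤ 2 * ((R + 2) * q) →
    C * ((R : ℝ) + 1) ^ 2 * Real.log n ≤ q → ((R : ℝ) + 1) ^ 2 ≤ (n : ℝ) ^ (1 / 4 : ℝ) →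
    (n : ℝ) ≤ (q / (12 * ((R : ℝ) + 1) ^ 2)) ^ R →
    (n : ℝ) ^ 4 * (2 * m : ℝ) ^ (4 * m) ≤ (q : ℝ) ^ (2 * m) →
    (Nat.card {y : Fin k → Alt n //
        ¬ Expanding (1 / (192 * (8 * (m : ℝ) ^ 2 + R) * (R + 2))) y} : ℝ) ≤
      4 / (n : ℝ) * (Fintype.card (Alt n) : ℝ) ^ k := by
  obtain ⟨C, hC, hZ⟩ := ZHIGH
  refine ⟨max C 1, by positivity, ?_⟩
  filter_upwards [hZ, ZLOW, BPART, eventually_ge_atTop 3] with n hZ hZL hB hn3
  intro k q m R hR hm hk1 hk2 hq1 hR2 hqR hmq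
  have hn : (0 : ℝ) < n := by positivity
  have hlog : 0 < Real.log n := Real.log_pos (by exact_mod_cast (by omega : 1 < n))
  have hR0 : (0 : ℝ) ≤ R := by positivity
  have hR1 : (1 : ℝ) ≤ R := by exact_mod_cast hR
  have hm1 : (1 : ℝ) ≤ m := by exact_mod_cast hm
  have hql : Real.log n ≤ q := by
    refine le_trans ?_ hq1
    have h1 : (1 : ℝ) ≤ max C 1 * ((R : ℝ) + 1) ^ 2 := by
      have : (1 : ℝ) ≤ max C 1 := le_max_right _ _
      nlinarith [sq_nonneg (R : ℝ)]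
    nlinarith
  have hqC : C * ((R : ℝ) + 1) ^ 2 * Real.log n ≤ q := by
    refine le_trans ?_ hq1
    gcongr
    exact le_max_left _ _
  have hq : 1 ≤ q := by
    have : (0 : ℝ) < q := lt_of_lt_of_le hlog hql
    exact_mod_cast this
  have hq0 : (0 : ℝ) < q := by exact_mod_cast hq
  set A : ℝ := (Fintype.card (Alt n) : ℝ) with hA
  have hA0 : 0 < A := by rw [hA]; exact_mod_cast Fintype.card_pos
  -- the good events
  let MX : (Fin q → Alt n) → Prop := fun x => Mix (gx x m)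
  let ZL : (Fin q → Alt n) → (Fin q → Alt n) → (Fin q → Alt n) → Prop := fun x b z =>
    ∀ j, 1 ≤ j → j ≤ m0 n → ∀ v ∈ Lvl j n,
        1 / 4 * ‖v‖ ^ 2 ≤ 48 * (m : ℝ) ^ 2 / q * En (repA j n) x v +
          8 / (q : ℝ) * En (repA j n) b v + 1 / (q : ℝ) * En (repA j n) z v
  let ZH : (Fin q → Alt n) → (Fin q → Alt n) → (Fin R → Fin q → Alt n) → Prop := fun x b z =>
    ∀ v ∈ HH (m0 n) n,
        ‖v‖ ^ 2 ≤ 384 * (m : ℝ) ^ 2 / q * En (RR n) x v +
          64 / (q : ℝ) * En (RR n) b v + 48 * R / (q : ℝ) * ∑ r, En (RR n) (z r) v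
  let Bad : (Fin q → Alt n) → (Fin q → Alt n) → (Fin R → Fin q → Alt n) → Prop := fun x b z =>
    ¬ (MX x ∧ GoodB (gx x m) (cb b) ∧ ZL x b (z ⟨0, hR⟩) ∧ ZH x b z)
  -- step 0: expansion
  have hexp : ∀ (e : Idx q R ↪ Fin k) (y : Fin k → Alt n),
      ¬ Bad (ux fun i => y (e i)) (ub fun i => y (e i)) (uz fun i => y (e i)) →
      Expanding (1 / (192 * (8 * (m : ℝ) ^ 2 + R) * (R + 2))) y := by
    intro e y hy
    simp only [Bad, not_not] at hy
    obtain ⟨-, -, h1, h2⟩ := hy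
    have hkq : (k : ℝ) ≤ 2 * ((R + 2) * q) := by exact_mod_cast hk2
    have hk0 : 0 < k := by
      refine lt_of_lt_of_le ?_ hk1
      positivity
    have hk0' : (0 : ℝ) < k := by exact_mod_cast hk0
    set c : ℝ := q / (48 * (8 * (m : ℝ) ^ 2 + R)) with hc
    have hc0 : 0 < c := by positivity
    have hD : 0 < 48 * (8 * (m : ℝ) ^ 2 + R) := by positivity
    have key : ∀ a b' z s : ℝ, 0 ≤ a → 0 ≤ b' → 0 ≤ z → ∀ N : ℝ,
        N ≤ (384 * (m : ℝ) ^ 2 * a + 64 * b' + 48 * R * z) / q → a + b' + z ≤ s →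
        c * N ≤ s := by
      intro a b' z s ha hb hz N hN hs
      rw [hc, div_mul_eq_mul_div, div_le_iff₀ hD]
      rw [le_div_iff₀ hq0] at hN
      have hm2 : 1 ≤ (m : ℝ) ^ 2 := by nlinarith
      calc q * N = N * q := by ring
        _ ≤ 384 * (m : ℝ) ^ 2 * a + 64 * b' + 48 * R * z := hN
        _ ≤ (a + b' + z) * (48 * (8 * (m : ℝ) ^ 2 + R)) := by nlinarith [mul_nonneg hR0 ha, mul_nonneg hR0 hb, mul_nonneg hb (by positivity : (0:ℝ) ≤ (m:ℝ)^2), mul_nonneg hz (by positivity : (0:ℝ) ≤ (m:ℝ)^2), mul_le_mul_of_nonneg_left hm2 hb]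
        _ ≤ s * (48 * (8 * (m : ℝ) ^ 2 + R)) := by gcongr
    have hF := FRALL n (m0 n) k hk0 y c hc0 ?_ ?_
    · refine expanding_mono ?_ hF
      rw [hc, div_div, div_le_div_iff₀ (by positivity) (by positivity)]
      nlinarith [mul_le_mul_of_nonneg_left hkq hD.le]
    · intro j hj1 hj2 f hf
      have h3 := h1 j hj1 hj2 f hf
      have hE := En_le (repA j n) e y f
      have hz : En (repA j n) (uz (fun i => y (e i)) ⟨0, hR⟩) f ≤
          ∑ r, En (repA j n) (uz (fun i => y (e i)) r) f :=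
        Finset.single_le_sum (f := fun r => En (repA j n) (uz (fun i => y (e i)) r) f)
          (fun r _ => En_nonneg _ _ _) (Finset.mem_univ _)
      refine key _ _ _ _ (En_nonneg _ _ _) (En_nonneg _ _ _)
        (Finset.sum_nonneg fun r _ => En_nonneg _ _ _) _ ?_ hE
      have ha := En_nonneg (repA j n) (ux fun i => y (e i)) f
      have hb := En_nonneg (repA j n) (ub fun i => y (e i)) f
      have hz0 := En_nonneg (repA j n) (uz (fun i => y (e i)) ⟨0, hR⟩) f
      set a := En (repA j n) (ux fun i => y (e i)) f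
      set b' := En (repA j n) (ub fun i => y (e i)) f
      set z0 := En (repA j n) (uz (fun i => y (e i)) ⟨0, hR⟩) f
      set z := ∑ r, En (repA j n) (uz (fun i => y (e i)) r) f
      have h4 : ‖f‖ ^ 2 ≤ (192 * (m : ℝ) ^ 2 * a + 32 * b' + 4 * z0) / q := by
        have : (192 * (m : ℝ) ^ 2 * a + 32 * b' + 4 * z0) / q =
          4 * (48 * (m : ℝ) ^ 2 / q * a + 8 / (q : ℝ) * b' + 1 / (q : ℝ) * z0) := by
          field_simp; ring
        rw [this]
        linarith
      refine h4.trans ?_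
      gcongr <;> nlinarith
    · intro f hf
      have h3 := h2 f hf
      have hE := En_le (RR n) e y f
      refine key _ _ _ _ (En_nonneg _ _ _) (En_nonneg _ _ _)
        (Finset.sum_nonneg fun r _ => En_nonneg _ _ _) _ ?_ hE
      refine h3.trans (le_of_eq ?_)
      field_simp
  -- step 1: counting
  have hcount : (Nat.card {p : (Fin q → Alt n) × ((Fin q → Alt n) × (Fin R → Fin q → Alt n)) //
      Bad p.1 p.2.1 p.2.2} : ℝ) ≤ 4 / (n : ℝ) * A ^ ((R + 2) * q) := by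
    have hcX : (Fintype.card (Fin q → Alt n) : ℝ) = A ^ q := by
      rw [Fintype.card_fun, Fintype.card_fin]; push_cast; rfl
    have hcZ : (Fintype.card (Fin R → Fin q → Alt n) : ℝ) = A ^ (R * q) := by
      rw [Fintype.card_fun, Fintype.card_fun, Fintype.card_fin, Fintype.card_fin, ← pow_mul,
        mul_comm q R]
      push_cast; rfl
    have hcYZ : (Fintype.card ((Fin q → Alt n) × (Fin R → Fin q → Alt n)) : ℝ) =
        A ^ q * A ^ (R * q) := by
      rw [Fintype.card_prod, Nat.cast_mul, hcX, hcZ]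
    have hZcount : ∀ x b, GoodB (gx x m) (cb b) →
        (Nat.card {z : Fin R → Fin q → Alt n // ¬ (ZL x b (z ⟨0, hR⟩) ∧ ZH x b z)} : ℝ) ≤
          2 / (n : ℝ) * (Fintype.card (Fin R → Fin q → Alt n) : ℝ) := by
      intro x b hxb
      have h1 := hZ q m R x b hR hqC hR2 hqR hxb
      have h2 := hZL q m x b hql hxb
      have h3 : (Nat.card {z : Fin R → Fin q → Alt n // ¬ ZL x b (z ⟨0, hR⟩)} : ℝ) ≤
          1 / (n : ℝ) * A ^ (R * q) := by
        have h4 := MARG (A := Fin q → Alt n)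
          (⟨fun _ : Fin 1 => (⟨0, hR⟩ : Fin R), fun a b _ => Subsingleton.elim a b⟩ : Fin 1 ↪ Fin R)
          (fun u => ¬ ZL x b (u 0))
        simp only [Function.Embedding.coeFn_mk, Fintype.card_fin, pow_one] at h4
        have h5 : Nat.card {u : Fin 1 → Fin q → Alt n // ¬ ZL x b (u 0)} =
            Nat.card {z : Fin q → Alt n // ¬ ZL x b z} :=
          RC14.card_equiv (Equiv.funUnique (Fin 1) (Fin q → Alt n)) _ _ fun z => Iff.rfl
        rw [h5] at h4
        have h6 : (Nat.card {z : Fin R → Fin q → Alt n // ¬ ZL x b (z ⟨0, hR⟩)} : ℝ) * A ^ q =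
            (Nat.card {z : Fin q → Alt n // ¬ ZL x b z} : ℝ) * A ^ (R * q) := by
          have := congrArg (Nat.cast (R := ℝ)) h4
          rw [Nat.cast_mul, Nat.cast_mul, Nat.cast_pow, hcX, ← pow_mul, mul_comm q R] at this
          exact this
        have h7 : (Nat.card {z : Fin R → Fin q → Alt n // ¬ ZL x b (z ⟨0, hR⟩)} : ℝ) * A ^ q ≤
            (1 / (n : ℝ) * A ^ (R * q)) * A ^ q := by
          rw [h6]
          calc _ ≤ (1 / (n : ℝ) * A ^ q) * A ^ (R * q) := by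
                gcongr
            _ = _ := by ring
        exact le_of_mul_le_mul_right h7 (by positivity)
      have h8 := RC14.card_union (Z := Fin R → Fin q → Alt n) (ι := Bool)
        (fun z => ¬ (ZL x b (z ⟨0, hR⟩) ∧ ZH x b z))
        (fun i z => if i then ¬ ZL x b (z ⟨0, hR⟩) else ¬ ZH x b z) (by
          intro z hz
          by_cases h : ZL x b (z ⟨0, hR⟩)
          · exact ⟨false, by simpa using fun h' => hz ⟨h, h'⟩⟩
          · exact ⟨true, by simpa using h⟩)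
      rw [Fintype.sum_bool] at h8
      simp only [if_true, Bool.false_eq_true, if_false] at h8
      have h9 : (Nat.card {z : Fin R → Fin q → Alt n // ¬ (ZL x b (z ⟨0, hR⟩) ∧ ZH x b z)} : ℝ) ≤
        (Nat.card {z : Fin R → Fin q → Alt n // ¬ ZL x b (z ⟨0, hR⟩)} : ℝ) +
        (Nat.card {z : Fin R → Fin q → Alt n // ¬ ZH x b z} : ℝ) := by exact_mod_cast h8
      rw [hcZ]
      calc _ ≤ _ := h9
        _ ≤ 1 / (n : ℝ) * A ^ (R * q) + 1 / (n : ℝ) * A ^ (R * q) := add_le_add h3 h1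
        _ = _ := by ring
    have hBZ : ∀ x, MX x → (Nat.card {p : (Fin q → Alt n) × (Fin R → Fin q → Alt n) //
        Bad x p.1 p.2} : ℝ) ≤
          3 / (n : ℝ) * (Fintype.card ((Fin q → Alt n) × (Fin R → Fin q → Alt n)) : ℝ) := by
      intro x hx
      have h1 := card_prod_bound (fun b : Fin q → Alt n => GoodB (gx x m) (cb b))
        (fun b z => Bad x b z) (2 / (n : ℝ)) (by positivity) (by
          intro b hb
          refine le_trans ?_ (hZcount x b hb)
          have := RC14.card_mono (fun z => Bad x b z)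
            (fun z => ¬ (ZL x b (z ⟨0, hR⟩) ∧ ZH x b z)) (fun z hz h => hz ⟨hx, hb, h⟩)
          exact_mod_cast this)
      have : Nonempty (Fin q) := ⟨⟨0, hq⟩⟩
      have h2 := hB q hq (Fin (2 * m) → Fin q × Bool) (gx x m) hx
      refine h1.trans ?_
      rw [hcYZ, hcX, hcZ]
      calc _ ≤ (1 / (n : ℝ) * A ^ q) * A ^ (R * q) + 2 / (n : ℝ) * A ^ q * A ^ (R * q) := by
            gcongr
        _ = _ := by ring
    have h1 := card_prod_bound MX (fun x (p : (Fin q → Alt n) × (Fin R → Fin q → Alt n)) =>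
      Bad x p.1 p.2) (3 / (n : ℝ)) (by positivity) hBZ
    have h2 := MIX n q (2 * m) hn3 hq
    have h3 : (n : ℝ) ^ 3 * ((2 * m : ℕ) : ℝ) ^ (2 * (2 * m)) / (q : ℝ) ^ (2 * m) ≤ 1 / n := by
      rw [div_le_div_iff₀ (by positivity) hn, one_mul]
      push_cast
      calc (n : ℝ) ^ 3 * (2 * (m : ℝ)) ^ (2 * (2 * m)) * n
          = (n : ℝ) ^ 4 * (2 * (m : ℝ)) ^ (4 * m) := by
            rw [show 2 * (2 * m) = 4 * m by ring]; ring
        _ ≤ _ := hmq
    refine h1.trans ?_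
    rw [hcYZ, hcX]
    calc _ ≤ (1 / (n : ℝ) * A ^ q) * (A ^ q * A ^ (R * q)) +
          3 / (n : ℝ) * A ^ q * (A ^ q * A ^ (R * q)) := by
          gcongr
          refine h2.trans ?_
          gcongr
      _ = 4 / (n : ℝ) * A ^ ((R + 2) * q) := by
          rw [show (R + 2) * q = R * q + q + q by ring, pow_add, pow_add]; ring
  -- step 2: transfer to `Fin k → A`
  obtain ⟨e⟩ : Nonempty (Idx q R ↪ Fin k) := by
    rw [Function.Embedding.nonempty_iff_card_le, card_Idx, Fintype.card_fin]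
    exact hk1
  have h4 := MARG (A := Alt n) e (fun u => Bad (ux u) (ub u) (uz u))
  have h5 : Nat.card {u : Idx q R → Alt n // Bad (ux u) (ub u) (uz u)} =
      Nat.card {p : (Fin q → Alt n) × ((Fin q → Alt n) × (Fin R → Fin q → Alt n)) //
        Bad p.1 p.2.1 p.2.2} :=
    RC14.card_equiv split _ _ fun z => Iff.rfl
  rw [h5, card_Idx, Fintype.card_fin] at h4
  have h6 : (Nat.card {y : Fin k → Alt n //
      Bad (ux fun i => y (e i)) (ub fun i => y (e i)) (uz fun i => y (e i))} : ℝ) *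
      A ^ ((R + 2) * q) ≤ (4 / (n : ℝ) * A ^ k) * A ^ ((R + 2) * q) := by
    have := congrArg (Nat.cast (R := ℝ)) h4
    rw [Nat.cast_mul, Nat.cast_mul, Nat.cast_pow, Nat.cast_pow] at this
    rw [← hA] at this
    rw [this]
    calc _ ≤ (4 / (n : ℝ) * A ^ ((R + 2) * q)) * A ^ k := by gcongr
      _ = _ := by ring
  have h7 := le_of_mul_le_mul_right h6 (by positivity)
  refine le_trans ?_ h7
  have h8 := RC14.card_mono
    (fun y : Fin k → Alt n => ¬ Expanding (1 / (192 * (8 * (m : ℝ) ^ 2 + R) * (R + 2))) y)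
    (fun y => Bad (ux fun i => y (e i)) (ub fun i => y (e i)) (uz fun i => y (e i)))
    (fun y hy => by
      by_contra h
      exact hy (hexp e y fun hb => hb h))
  exact_mod_cast h8

end RC852
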