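import Pool.Agent.H852R2.EX.EXMAIN

namespace RC852
open RC14 Finset Filter Topology

namespace FINAL

/-- asymptotic facts in terms of `ℓ = log n` -/
lemma ev_ell (C : ℝ) (hC : 0 < C) : ∀ᶠ l : ℝ in atTop,
    2 ≤ l ∧ 1 ≤ Real.log l ∧ 54 * C ≤ (Real.log l) ^ 3 ∧ 4 ≤ l / Real.log l ∧
      100000 ≤ l ∧ l ^ 2 ≤ Real.exp (l / 4) := by
  have hlog : Tendsto Real.log atTop atTop := Real.tendsto_log_atTop
  have h3 : Tendsto (fun l : ℝ => (Real.log l) ^ 3) atTop atTop :=
    (tendsto_pow_atTop (by norm_num)).comp hlog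
  have h4 : Tendsto (fun l : ℝ => Real.log l / l) atTop (𝓝 0) :=
    Real.isLittleO_log_id_atTop.tendsto_div_nhds_zero
  have h5 : Tendsto (fun l : ℝ => l ^ 2 / Real.exp (l / 4)) atTop (𝓝 0) := by
    have h6 := Real.tendsto_pow_mul_exp_neg_atTop_nhds_zero 2
    have h7 : Tendsto (fun l : ℝ => l / 4) atTop atTop :=
      tendsto_id.atTop_div_const (by norm_num)
    have h8 := (h6.comp h7).const_mul 16
    rw [mul_zero] at h8
    refine h8.congr fun l => ?_
    simp only [Function.comp]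
    rw [Real.exp_neg]
    ring
  filter_upwards [eventually_ge_atTop (2 : ℝ), hlog.eventually_ge_atTop 1,
    h3.eventually_ge_atTop (54 * C), h4.eventually_lt_const (by norm_num : (0 : ℝ) < 1 / 4),
    h5.eventually_lt_const (by norm_num : (0 : ℝ) < 1), eventually_ge_atTop (100000 : ℝ)]
    with l h1 h2 h3 h4 h5 h6
  have hl : 0 < l := by linarith
  refine ⟨h1, h2, h3, ?_, h6, ?_⟩
  · rw [div_lt_iff₀ hl] at h4
    rw [le_div_iff₀ (by linarith)]
    linarith
  · rw [div_lt_one (Real.exp_pos _)] at h5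
    exact h5.le

end FINAL

/-- uniform version -/
theorem UNIF : ∃ c : ℝ, 0 < c ∧ ∀ᶠ n : ℕ in atTop, ∀ k : ℕ, Real.log n ^ 4 ≤ k →
    (Nat.card {x : Fin k → Alt n //
        ¬ Expanding (c * min 1 (Real.log k / Real.log n) ^ 3) x} : ℝ) ≤
      4 / (n : ℝ) * (Fintype.card (Alt n) : ℝ) ^ k := by
  obtain ⟨C, hC, hE⟩ := EXMAIN
  refine ⟨1 / 20000000, by norm_num, ?_⟩
  have hlog : Tendsto (fun n : ℕ => Real.log n) atTop atTop :=
    Real.tendsto_log_atTop.comp tendsto_natCast_atTop_atTop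
  filter_upwards [hE, hlog.eventually (FINAL.ev_ell C hC), eventually_ge_atTop 3]
    with n hE hl hn3 k hk
  obtain ⟨hl2, hll, hlC, hl4, hl5, hlexp⟩ := hl
  set l : ℝ := Real.log n with hldef
  have hn : (0 : ℝ) < n := by positivity
  have hexpl : Real.exp l = n := Real.exp_log hn
  have hl0 : 0 < l := by linarith
  have hk1 : (1 : ℝ) < k := by
    refine lt_of_lt_of_le ?_ hk
    exact one_lt_pow₀ (by linarith) (by norm_num)
  have hk0 : (0 : ℝ) < k := by linarith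
  set L : ℝ := Real.log k with hLdef
  have hexpL : Real.exp L = k := Real.exp_log hk0
  have hL : 4 * Real.log l ≤ L := by
    rw [hLdef, ← Real.log_rpow hl0]
    apply Real.log_le_log (by positivity)
    rw [show (4 : ℝ) = ((4 : ℕ) : ℝ) by norm_num, Real.rpow_natCast]
    exact hk
  have hL0 : 0 < L := by linarith
  set R : ℕ := ⌈8 * l / L⌉₊ with hR
  have hR1 : 1 ≤ R := by
    rw [hR, Nat.one_le_ceil_iff]; positivity
  have hRge : 8 * l / L ≤ R := Nat.le_ceil _
  have hRle : (R : ℝ) ≤ 8 * l / L + 1 := (Nat.ceil_lt_add_one (by positivity)).le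
  have hR1' : (1 : ℝ) ≤ R := by exact_mod_cast hR1
  -- `R + 2 ≤ 3 l / log l`
  set s : ℝ := l / Real.log l with hs
  have hs0 : 0 < s := by rw [hs]; positivity
  have hRs : (R : ℝ) + 2 ≤ 3 * s := by
    have h1 : 8 * l / L ≤ 2 * s := by
      rw [hs, div_le_iff₀ hL0]
      calc 8 * l = 2 * (l / Real.log l) * (4 * Real.log l) := by field_simp; ring
        _ ≤ 2 * (l / Real.log l) * L := by gcongr
    linarith
  have hsl : s ≤ l := by
    rw [hs, div_le_iff₀ (by linarith)]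
    nlinarith
  -- bounds for k
  have hk4 : l ^ 4 ≤ k := hk
  have hRpos : (0 : ℝ) < R + 2 := by positivity
  have hR3 : ((R : ℝ) + 2) ^ 3 ≤ 27 * s ^ 3 := by
    calc ((R : ℝ) + 2) ^ 3 ≤ (3 * s) ^ 3 := by gcongr
      _ = 27 * s ^ 3 := by ring
  have hs3 : s ^ 3 * (Real.log l) ^ 3 = l ^ 3 := by
    rw [hs]; field_simp
  -- the number q
  set q : ℕ := k / (R + 2) with hq
  have hqk : (R + 2) * q ≤ k := Nat.mul_div_le k (R + 2)
  have hkbig : 2 * C * ((R : ℝ) + 2) ^ 3 * l ≤ k := by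
    calc 2 * C * ((R : ℝ) + 2) ^ 3 * l ≤ 2 * C * (27 * s ^ 3) * l := by gcongr
      _ = (54 * C) * s ^ 3 * l := by ring
      _ ≤ (Real.log l) ^ 3 * s ^ 3 * l := by gcongr
      _ = l ^ 4 := by rw [mul_comm (Real.log l ^ 3), hs3]; ring
      _ ≤ k := hk4
  have hkR : 4 * ((R : ℝ) + 2) ≤ k := by
    calc 4 * ((R : ℝ) + 2) ≤ 4 * (3 * l) := by linarith
      _ ≤ l ^ 4 := by nlinarith [pow_le_pow_left₀ (by norm_num : (0:ℝ) ≤ 2) hl2 2, pow_le_pow_left₀ (by norm_num : (0:ℝ) ≤ 2) hl2 3, hl5, mul_pos hl0 hl0]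
      _ ≤ k := hk4
  have hqge : (k : ℝ) / (2 * (R + 2)) ≤ q := by
    have h1 : k < (R + 2) * (q + 1) := by
      rw [hq]; exact Nat.lt_mul_div_succ k (by omega)
    have h2 : (k : ℝ) ≤ (R + 2) * (q + 1) := by exact_mod_cast h1.le
    rw [div_le_iff₀ (by positivity)]
    nlinarith
  have hq0 : (0 : ℝ) < q := lt_of_lt_of_le (by positivity) hqge
  have hq1 : 1 ≤ q := by exact_mod_cast hq0
  have hkq : k ≤ 2 * ((R + 2) * q) := by
    have h1 : k < (R + 2) * (q + 1) := by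
      rw [hq]; exact Nat.lt_mul_div_succ k (by omega)
    nlinarith
  -- power bound: `24 (R+2)^3 k^{1/8} ≤ k` and more
  have hpow : 96 * ((R : ℝ) + 2) ^ 3 * Real.exp (L / 8) ≤ k := by
    have h1 : Real.exp (L / 8) * Real.exp (7 * L / 8) = k := by
      rw [← Real.exp_add, ← hexpL]; congr 1; ring
    have h2 : 96 * ((R : ℝ) + 2) ^ 3 ≤ Real.exp (7 * L / 8) := by
      have h3 : l ^ 3 * Real.sqrt l ≤ Real.exp (7 * L / 8) := by
        have h4 : Real.exp (7 / 2 * Real.log l) ≤ Real.exp (7 * L / 8) := by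
          apply Real.exp_le_exp.mpr; linarith
        refine le_trans (le_of_eq ?_) h4
        rw [show 7 / 2 * Real.log l = Real.log l + Real.log l + Real.log l + Real.log l / 2 by ring,
          Real.exp_add, Real.exp_add, Real.exp_add, Real.exp_log hl0, Real.exp_half,
          Real.exp_log hl0]
        ring
      have h5 : 96 * 27 ≤ Real.sqrt l * (Real.log l) ^ 3 := by
        have h6 : (300 : ℝ) ≤ Real.sqrt l := by
          apply Real.le_sqrt_of_sq_le; linarith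
        have h7 : (9 : ℝ) ≤ (Real.log l) ^ 3 := by
          have h8 : (9 : ℝ) ≤ Real.log l := by
            have h9 : Real.exp 9 ≤ l := by
              have : Real.exp 9 ≤ 3 ^ 9 := by
                rw [show (9 : ℝ) = ((9 : ℕ) : ℝ) * 1 by norm_num, Real.exp_nat_mul]
                have := Real.exp_one_lt_d9
                gcongr
                linarith
              linarith [this, (by norm_num : (3 : ℝ) ^ 9 = 19683)]
            exact (Real.le_log_iff_exp_le hl0).mpr h9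
          nlinarith [pow_le_pow_left₀ (by norm_num : (0:ℝ) ≤ 9) h8 2, pow_le_pow_left₀ (by norm_num : (0:ℝ) ≤ 9) h8 3]
        nlinarith
      calc 96 * ((R : ℝ) + 2) ^ 3 ≤ 96 * (27 * s ^ 3) := by gcongr
        _ = (96 * 27) * s ^ 3 := by ring
        _ ≤ (Real.sqrt l * (Real.log l) ^ 3) * s ^ 3 := by gcongr
        _ = l ^ 3 * Real.sqrt l := by rw [← hs3]; ring
        _ ≤ _ := h3
    calc 96 * ((R : ℝ) + 2) ^ 3 * Real.exp (L / 8)
        ≤ Real.exp (7 * L / 8) * Real.exp (L / 8) := by gcongr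
      _ = k := by rw [mul_comm]; exact h1
  have hRl : 8 * l ≤ L * R := by
    rw [div_le_iff₀ hL0] at hRge; linarith
  have hconcl := hE k q (2 * R) R hR1 (by omega) hqk hkq ?_ ?_ ?_ ?_
  · -- monotonicity of the constant
    refine le_trans ?_ hconcl
    have hmono : (1 / 20000000 : ℝ) * min 1 (L / l) ^ 3 ≤
        1 / (192 * (8 * ((2 * R : ℕ) : ℝ) ^ 2 + R) * (R + 2)) := by
      set κ : ℝ := min 1 (L / l) with hκ
      have hκ0 : 0 < κ := by rw [hκ]; positivity
      have hRκ : (R : ℝ) * κ ≤ 9 := by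
        have h1 : κ ≤ 1 := min_le_left _ _
        have h2 : κ ≤ L / l := min_le_right _ _
        calc (R : ℝ) * κ ≤ (8 * l / L + 1) * κ := by gcongr
          _ = 8 * l / L * κ + κ := by ring
          _ ≤ 8 * l / L * (L / l) + 1 := by gcongr
          _ = 9 := by field_simp; norm_num
      have hRκ3 : ((R : ℝ) * κ) ^ 3 ≤ 9 ^ 3 := by gcongr
      rw [le_div_iff₀ (by positivity)]
      push_cast
      have h3 : 192 * (8 * (2 * (R : ℝ)) ^ 2 + R) * (R + 2) ≤ 19008 * (R : ℝ) ^ 3 := by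
        nlinarith [mul_nonneg (sub_nonneg.mpr hR1') (sub_nonneg.mpr hR1'), sq_nonneg (R : ℝ), mul_nonneg (mul_nonneg (sub_nonneg.mpr hR1') (sub_nonneg.mpr hR1')) (sub_nonneg.mpr hR1'), mul_nonneg (by positivity : (0:ℝ) ≤ R) (sub_nonneg.mpr hR1'), mul_nonneg (by positivity : (0:ℝ) ≤ (R:ℝ)^2) (sub_nonneg.mpr hR1')]
      calc 1 / 20000000 * κ ^ 3 * (192 * (8 * (2 * (R : ℝ)) ^ 2 + R) * (R + 2))
          ≤ 1 / 20000000 * κ ^ 3 * (19008 * (R : ℝ) ^ 3) := by gcongr
        _ = 19008 / 20000000 * ((R : ℝ) * κ) ^ 3 := by ring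
        _ ≤ 19008 / 20000000 * 9 ^ 3 := by gcongr
        _ ≤ 1 := by norm_num
    have := RC14.card_mono (fun x : Fin k → Alt n => ¬ Expanding (1 / 20000000 * min 1 (L / l) ^ 3) x)
      (fun x => ¬ Expanding (1 / (192 * (8 * ((2 * R : ℕ) : ℝ) ^ 2 + R) * (R + 2))) x)
      (fun x hx h => hx (EXMAIN.expanding_mono hmono h))
    exact_mod_cast this
  · -- (b)
    refine le_trans ?_ hqge
    rw [le_div_iff₀ (by positivity)]
    calc C * ((R : ℝ) + 1) ^ 2 * l * (2 * (R + 2)) ≤ C * ((R : ℝ) + 2) ^ 2 * l * (2 * (R + 2)) := by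
          gcongr; norm_num
      _ = 2 * C * ((R : ℝ) + 2) ^ 3 * l := by ring
      _ ≤ k := hkbig
  · -- (c)
    have h1 : (n : ℝ) ^ (1 / 4 : ℝ) = Real.exp (l / 4) := by
      rw [Real.rpow_def_of_pos hn]; congr 1; ring
    rw [h1]
    refine le_trans ?_ hlexp
    have h2 : (R : ℝ) + 1 ≤ l := by
      have h3 : 3 * s ≤ l := by
        rw [hs, mul_div_assoc', div_le_iff₀ (by linarith)]
        have h8 : (3 : ℝ) ≤ Real.log l := by
          have h9 : Real.exp 3 ≤ l := by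
            have h10 : Real.exp 3 = Real.exp 1 ^ 3 := by
              rw [← Real.exp_nat_mul]; norm_num
            have h11 : Real.exp 1 ^ 3 ≤ 3 ^ 3 := by
              have := Real.exp_one_lt_d9
              gcongr
              linarith
            linarith [h10, h11, (by norm_num : (3 : ℝ) ^ 3 = 27)]
          exact (Real.le_log_iff_exp_le hl0).mpr h9
        nlinarith
      linarith
    gcongr
  · -- (d)
    have h1 : Real.exp (L / 8) ≤ q / (12 * ((R : ℝ) + 1) ^ 2) := by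
      rw [le_div_iff₀ (by positivity)]
      refine le_trans ?_ hqge
      rw [le_div_iff₀ (by positivity)]
      calc Real.exp (L / 8) * (12 * ((R : ℝ) + 1) ^ 2) * (2 * (R + 2))
          ≤ Real.exp (L / 8) * (12 * ((R : ℝ) + 2) ^ 2) * (2 * (R + 2)) := by
            gcongr; norm_num
        _ = 24 * ((R : ℝ) + 2) ^ 3 * Real.exp (L / 8) := by ring
        _ ≤ 96 * ((R : ℝ) + 2) ^ 3 * Real.exp (L / 8) := by gcongr; norm_num
        _ ≤ k := hpow
    calc (n : ℝ) = Real.exp l := hexpl.symm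
      _ ≤ Real.exp (R * (L / 8)) := by apply Real.exp_le_exp.mpr; linarith
      _ = Real.exp (L / 8) ^ R := by rw [Real.exp_nat_mul]
      _ ≤ _ := by gcongr
  · -- (e)
    have h1 : Real.exp (L / 8) * (2 * (2 * (R : ℝ))) ^ 2 ≤ q := by
      refine le_trans ?_ hqge
      rw [le_div_iff₀ (by positivity)]
      have h2 : (R : ℝ) ^ 2 * (R + 2) ≤ (R + 2) ^ 3 := by
        have : (R : ℝ) ^ 2 ≤ (R + 2) ^ 2 := by gcongr; norm_num
        nlinarith
      calc Real.exp (L / 8) * (2 * (2 * (R : ℝ))) ^ 2 * (2 * (R + 2))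
          = 32 * ((R : ℝ) ^ 2 * (R + 2)) * Real.exp (L / 8) := by ring
        _ ≤ 96 * ((R : ℝ) + 2) ^ 3 * Real.exp (L / 8) := by
            gcongr
            nlinarith
        _ ≤ k := hpow
    push_cast
    have e1 : (n : ℝ) ^ 4 = Real.exp (4 * l) := by
      rw [← hexpl, ← Real.exp_nat_mul]; norm_num
    have e2 : (2 * (2 * (R : ℝ))) ^ (4 * (2 * R)) = ((2 * (2 * (R : ℝ))) ^ 2) ^ (2 * (2 * R)) := by
      rw [← pow_mul]; congr 1; ring
    calc (n : ℝ) ^ 4 * (2 * (2 * (R : ℝ))) ^ (4 * (2 * R))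
        = Real.exp (4 * l) * ((2 * (2 * (R : ℝ))) ^ 2) ^ (2 * (2 * R)) := by
          rw [e1, e2]
      _ ≤ Real.exp ((2 * (2 * R) : ℕ) * (L / 8)) * ((2 * (2 * (R : ℝ))) ^ 2) ^ (2 * (2 * R)) := by
          refine mul_le_mul_of_nonneg_right (Real.exp_le_exp.mpr ?_) (by positivity)
          push_cast
          linarith
      _ = (Real.exp (L / 8) * (2 * (2 * (R : ℝ))) ^ 2) ^ (2 * (2 * R)) := by
          rw [Real.exp_nat_mul, ← mul_pow]
      _ ≤ (q : ℝ) ^ (2 * (2 * R)) := by gcongr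

/-- from a bound `4/n` for the bad proportion to the limit -/
lemma tendsto_of_bad (k : ℕ → ℕ) (P : ∀ n, (Fin (k n) → Alt n) → Prop)
    (h : ∀ᶠ n : ℕ in atTop, (Nat.card {x : Fin (k n) → Alt n // ¬ P n x} : ℝ) ≤
      4 / (n : ℝ) * (Fintype.card (Alt n) : ℝ) ^ k n) :
    Tendsto (fun n : ℕ => (Nat.card {x : Fin (k n) → Alt n // P n x} : ℝ) /
        (Fintype.card (Alt n) : ℝ) ^ k n) atTop (𝓝 1) := by
  have hlim : Tendsto (fun n : ℕ => 1 - 4 / (n : ℝ)) atTop (𝓝 1) := by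
    have : Tendsto (fun n : ℕ => 4 / (n : ℝ)) atTop (𝓝 0) :=
      tendsto_const_div_atTop_nhds_zero_nat 4
    simpa using tendsto_const_nhds.sub this
  refine tendsto_of_tendsto_of_tendsto_of_le_of_le' hlim tendsto_const_nhds ?_ ?_
  · filter_upwards [h] with n hn
    have hA : (0 : ℝ) < (Fintype.card (Alt n) : ℝ) := by exact_mod_cast Fintype.card_pos
    rw [le_div_iff₀ (by positivity), RC14.card_compl, Fintype.card_fun, Fintype.card_fin]
    push_cast
    linarith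
  · refine Eventually.of_forall fun n => ?_
    have hA : (0 : ℝ) < (Fintype.card (Alt n) : ℝ) := by exact_mod_cast Fintype.card_pos
    rw [div_le_one (by positivity), RC14.card_compl, Fintype.card_fun, Fintype.card_fin]
    push_cast
    linarith [Nat.cast_nonneg (α := ℝ) (Nat.card {x : Fin (k n) → Alt n // ¬ P n x})]

/-- `k ≥ (log n)^4` random even permutations: spectral gap at least `c (log k / log n)^3` -/
theorem FINAL : ∃ c : ℝ, 0 < c ∧ ∀ k : ℕ → ℕ, (∀ᶠ n : ℕ in atTop, Real.log n ^ 4 ≤ k n) →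
    Tendsto (fun n : ℕ =>
      (Nat.card {x : Fin (k n) → Alt n //
        Expanding (c * min 1 (Real.log (k n) / Real.log n) ^ 3) x} : ℝ) /
        (Fintype.card (Alt n) : ℝ) ^ k n) atTop (𝓝 1) := by
  obtain ⟨c, hc, hU⟩ := UNIF
  refine ⟨c, hc, fun k hk => tendsto_of_bad k _ ?_⟩
  filter_upwards [hU, hk] with n h1 h2 using h1 (k n) h2

/-- `n^δ` random even permutations are expanding -/
theorem FINAL2 (δ : ℝ) (hδ : 0 < δ) : ∃ ε : ℝ, 0 < ε ∧
    Tendsto (fun n : ℕ =>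
      (Nat.card {x : Fin ⌈(n : ℝ) ^ δ⌉₊ → Alt n // Expanding ε x} : ℝ) /
        (Fintype.card (Alt n) : ℝ) ^ ⌈(n : ℝ) ^ δ⌉₊) atTop (𝓝 1) := by
  obtain ⟨c, hc, hU⟩ := UNIF
  refine ⟨c * min 1 δ ^ 3, by positivity, tendsto_of_bad (fun n => ⌈(n : ℝ) ^ δ⌉₊) _ ?_⟩
  have hlog : ∀ᶠ n : ℕ in atTop, Real.log n ^ 4 ≤ (n : ℝ) ^ δ := by
    have h1 : Tendsto (fun x : ℝ => Real.log x ^ 4 / x ^ δ) atTop (𝓝 0) := by
      have h2 := isLittleO_log_rpow_rpow_atTop (s := δ) 4 hδ
      have h3 := h2.tendsto_div_nhds_zero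
      refine h3.congr fun x => ?_
      congr 1
      rw [show (4 : ℝ) = ((4 : ℕ) : ℝ) by norm_num, Real.rpow_natCast]
    have h2 := (h1.comp tendsto_natCast_atTop_atTop).eventually_lt_const (by norm_num : (0:ℝ) < 1)
    filter_upwards [h2, eventually_gt_atTop 0] with n hn hn0
    have hp : (0 : ℝ) < (n : ℝ) ^ δ := Real.rpow_pos_of_pos (by exact_mod_cast hn0) _
    simp only [Function.comp] at hn
    rw [div_lt_one hp] at hn
    exact hn.le
  filter_upwards [hU, hlog, eventually_ge_atTop 3] with n h1 h2 hn3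
  have hn : (1 : ℝ) < n := by exact_mod_cast (by omega : 1 < n)
  have hn0 : (0 : ℝ) < n := by linarith
  have hl : 0 < Real.log n := Real.log_pos hn
  have h3 := h1 ⌈(n : ℝ) ^ δ⌉₊ (h2.trans (Nat.le_ceil _))
  refine le_trans ?_ h3
  have hmono : c * min 1 δ ^ 3 ≤
      c * min 1 (Real.log (⌈(n : ℝ) ^ δ⌉₊ : ℕ) / Real.log n) ^ 3 := by
    have h4 : δ ≤ Real.log (⌈(n : ℝ) ^ δ⌉₊ : ℕ) / Real.log n := by
      rw [le_div_iff₀ hl, ← Real.log_rpow hn0]
      exact Real.log_le_log (Real.rpow_pos_of_pos hn0 _) (Nat.le_ceil _)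
    gcongr
  have := RC14.card_mono (fun x : Fin ⌈(n : ℝ) ^ δ⌉₊ → Alt n => ¬ Expanding (c * min 1 δ ^ 3) x)
    (fun x => ¬ Expanding (c * min 1 (Real.log (⌈(n : ℝ) ^ δ⌉₊ : ℕ) / Real.log n) ^ 3) x)
    (fun x hx h => hx (EXMAIN.expanding_mono hmono h))
  exact_mod_cast this

end RC852
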