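import Pool.Agent.H852R2.EX.Defs

/-! Parameters of the project EX -/

namespace RC852
open RC14 Finset

noncomputable section

/-- the number of levels which are treated one by one -/
def m0 (n : ℕ) : ℕ := ⌊Real.exp (-81) * Real.sqrt n⌋₊

/-- the number of fixed points -/
def F0 (n : ℕ) : ℕ := ⌈Real.exp (-80) * n⌉₊

/-- for all `1 ≤ j ≤ m0 n` only few block words of length `64 j` have many fixed points -/
def GoodB {n q : ℕ} {K : Type*} [Fintype K] (g : K → Equiv.Perm (Fin n))
    (b : Fin q → Equiv.Perm (Fin n)) : Prop :=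
  ∀ j, 1 ≤ j → j ≤ m0 n →
    (Nat.card {w : Fin (64 * j) → K × (Fin q × Bool) // F0 n ≤ nfix (bwd g b w)} : ℝ) ≤
      (1 / (n : ℝ)) ^ j * (Fintype.card (K × (Fin q × Bool)) : ℝ) ^ (64 * j)

/-- the words of length `2m` in `x`, as permutations -/
def gx {n q : ℕ} (x : Fin q → Alt n) (m : ℕ) (v : Fin (2 * m) → Fin q × Bool) :
    Equiv.Perm (Fin n) := ((wrd x v : Alt n) : Equiv.Perm (Fin n))

/-- the letters `b` as permutations -/
def cb {n q : ℕ} (b : Fin q → Alt n) (i : Fin q) : Equiv.Perm (Fin n) :=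
  (b i : Equiv.Perm (Fin n))

end

end RC852
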